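import Mathlib

/-!
# A three-qubit strong nonlocality paradox whose state is not an interpolant state

The state is `a|000⟩ + b|011⟩ + c(|101⟩ + |110⟩)` with `a = √2/2`, `b = 1 - √2/2`, `c = √(ab)`.
The first party has four measurements, the two others have three each.
-/

namespace Pool.Agent.Results.MP_3e1590_mp.NoInterpolant

open Finset
open scoped ComplexConjugate Matrix

/-- The observable `n·σ = n_x X + n_y Y + n_z Z` on one qubit. -/
noncomputable def spin (n : Fin 3 → ℝ) : Matrix (Fin 2) (Fin 2) ℂ :=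
  !![(n 2 : ℂ), (n 0 : ℂ) - (n 1 : ℂ) * Complex.I;
     (n 0 : ℂ) + (n 1 : ℂ) * Complex.I, -(n 2 : ℂ)]

/-- The projector `(1 + (-1)^a n·σ)/2` of the outcome `a` of the observable `n·σ`. -/
noncomputable def proj (n : Fin 3 → ℝ) (a : Fin 2) : Matrix (Fin 2) (Fin 2) ℂ :=
  (1 / 2 : ℂ) • (1 + (-1 : ℂ) ^ (a : ℕ) • spin n)

/-- The Born probability `⟨ψ| P₁ ⊗ P₂ ⊗ P₃ |ψ⟩` of the joint outcome `a` of the context `n`
in the three-qubit state `ψ` (amplitudes in the computational basis `x : Fin 3 → Fin 2`). -/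
noncomputable def born (ψ : (Fin 3 → Fin 2) → ℂ) (n : Fin 3 → Fin 3 → ℝ) (a : Fin 3 → Fin 2) : ℂ :=
  ∑ x, ∑ y, conj (ψ x) * (∏ i, proj (n i) (a i) (x i) (y i)) * ψ y

/-- `(ψ, M)` is a three-qubit quantum scenario: `ψ` is a unit vector and `M i` is a finite nonempty
set of unit vectors `n ∈ S²`, the directions of the measurements `n·σ` on qubit `i`. -/
structure IsScenario (ψ : (Fin 3 → Fin 2) → ℂ) (M : Fin 3 → Finset (Fin 3 → ℝ)) : Prop where
  unit : ∑ x, ‖ψ x‖ ^ 2 = 1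
  nonempty : ∀ i, (M i).Nonempty
  sphere : ∀ i, ∀ n ∈ M i, n 0 ^ 2 + n 1 ^ 2 + n 2 ^ 2 = 1

/-- The scenario is a paradox: there is no global assignment `g` of outcomes to the measurements
such that the induced joint outcome is possible in every context. -/
def IsParadox (ψ : (Fin 3 → Fin 2) → ℂ) (M : Fin 3 → Finset (Fin 3 → ℝ)) : Prop :=
  ¬ ∃ g : Fin 3 → (Fin 3 → ℝ) → Fin 2, ∀ n : Fin 3 → Fin 3 → ℝ, (∀ i, n i ∈ M i) →
    born ψ n (fun i => g i (n i)) ≠ 0

/-- The interpolant state `|B_λ⟩`. -/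
noncomputable def interpolant (l : ℝ) (x : Fin 3 → Fin 2) : ℂ :=
  if x 0 = x 1 then
    (if x 2 = x 0 then (Real.cos (l / 2) : ℂ) else (Real.sin (l / 2) : ℂ)) / (Real.sqrt 2 : ℂ)
  else 0

/-- `φ` is obtained from `ψ` by a permutation of the qubits, local unitaries and a global phase. -/
def Equivalent (ψ φ : (Fin 3 → Fin 2) → ℂ) : Prop :=
  ∃ (U : Fin 3 → Matrix (Fin 2) (Fin 2) ℂ) (s : Equiv.Perm (Fin 3)) (z : ℂ),
    (∀ i, U i ∈ Matrix.unitaryGroup (Fin 2) ℂ) ∧ ‖z‖ = 1 ∧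
    ∀ x, φ x = z * ∑ y, (∏ i, U i (x i) (y i)) * ψ (y ∘ s)

/-! ### Product operators -/

/-- `P₁ ⊗ P₂ ⊗ P₃` -/
noncomputable def tens (P : Fin 3 → Matrix (Fin 2) (Fin 2) ℂ) :
    Matrix (Fin 3 → Fin 2) (Fin 3 → Fin 2) ℂ :=
  Matrix.of fun x y => ∏ i, P i (x i) (y i)

theorem tens_mul (P Q : Fin 3 → Matrix (Fin 2) (Fin 2) ℂ) :
    tens P * tens Q = tens (fun i => P i * Q i) := by
  ext x y
  simp only [Matrix.mul_apply, tens, Matrix.of_apply]
  rw [Finset.prod_univ_sum]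
  simp only [Fintype.piFinset_univ]
  apply Finset.sum_congr rfl
  intro z _
  rw [← Finset.prod_mul_distrib]

theorem tens_conj (P : Fin 3 → Matrix (Fin 2) (Fin 2) ℂ) :
    (tens P)ᴴ = tens (fun i => (P i)ᴴ) := by
  ext x y
  simp only [tens, Matrix.conjTranspose_apply, Matrix.of_apply, star_prod]

/-- expectation value -/
noncomputable def ev (ψ : (Fin 3 → Fin 2) → ℂ) (P : Fin 3 → Matrix (Fin 2) (Fin 2) ℂ) : ℂ :=
  star ψ ⬝ᵥ (tens P *ᵥ ψ)

theorem ev_perm (ψ : (Fin 3 → Fin 2) → ℂ) (s : Equiv.Perm (Fin 3))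
    (P : Fin 3 → Matrix (Fin 2) (Fin 2) ℂ) :
    ev (fun y => ψ (y ∘ s)) P = ev ψ (fun i => P (s i)) := by
  unfold ev
  simp only [dotProduct, Matrix.mulVec, tens, Matrix.of_apply, Pi.star_apply]
  let e : (Fin 3 → Fin 2) ≃ (Fin 3 → Fin 2) := Equiv.arrowCongr s.symm (Equiv.refl _)
  have he : ∀ y : Fin 3 → Fin 2, e y = y ∘ s := by
    intro y; funext i; simp [e, Equiv.arrowCongr]
  conv_rhs => rw [← e.sum_comp]
  apply Finset.sum_congr rfl
  intro x _
  rw [he x]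
  congr 1
  conv_rhs => rw [← e.sum_comp]
  apply Finset.sum_congr rfl
  intro y _
  rw [he y]
  congr 1
  exact (Equiv.prod_comp s (fun i => P i (x i) (y i))).symm

theorem ev_equiv {ψ φ : (Fin 3 → Fin 2) → ℂ} {U : Fin 3 → Matrix (Fin 2) (Fin 2) ℂ}
    {s : Equiv.Perm (Fin 3)} {z : ℂ} (hz : ‖z‖ = 1)
    (h : ∀ x, φ x = z * ∑ y, (∏ i, U i (x i) (y i)) * ψ (y ∘ s))
    (P : Fin 3 → Matrix (Fin 2) (Fin 2) ℂ) :
    ev φ P = ev (fun y => ψ (y ∘ s)) (fun i => (U i)ᴴ * P i * U i) := by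
  have h1 : φ = z • (tens U *ᵥ (fun y => ψ (y ∘ s))) := by
    funext x
    rw [h x]
    simp only [Pi.smul_apply, smul_eq_mul, Matrix.mulVec, dotProduct, tens, Matrix.of_apply]
  have hz2 : star z * z = 1 := by
    have := Complex.conj_mul' z
    rw [hz] at this
    simpa using this
  unfold ev
  rw [h1, star_smul, smul_dotProduct, Matrix.mulVec_smul, dotProduct_smul, smul_smul, hz2,
    one_smul, Matrix.star_mulVec, Matrix.mulVec_mulVec, ← Matrix.dotProduct_mulVec,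
    Matrix.mulVec_mulVec, tens_conj, ← Matrix.mul_assoc, tens_mul, tens_mul]

/-- bit strings of length three as triples -/
def tri : Fin 2 × Fin 2 × Fin 2 ≃ (Fin 3 → Fin 2) where
  toFun p := ![p.1, p.2.1, p.2.2]
  invFun f := (f 0, f 1, f 2)
  left_inv p := rfl
  right_inv f := by
    funext i
    fin_cases i <;> rfl

theorem sum_tri (f : (Fin 3 → Fin 2) → ℂ) : ∑ x, f x =
    ∑ i : Fin 2, ∑ j : Fin 2, ∑ k : Fin 2, f ![i, j, k] := by
  rw [← tri.sum_comp]
  simp only [Fintype.sum_prod_type]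
  rfl

theorem interp_marginal (l : ℝ) (A : Matrix (Fin 2) (Fin 2) ℂ) :
    ev (interpolant l) ![A, 1, 1] = (A 0 0 + A 1 1) / 2 := by
  have hcs : (Real.cos (l / 2) : ℂ) ^ 2 + (Real.sin (l / 2) : ℂ) ^ 2 = 1 := by
    have := Real.cos_sq_add_sin_sq (l / 2)
    exact_mod_cast this
  have h2 : (Real.sqrt 2 : ℂ) ^ 2 = 2 := by
    have := Real.sq_sqrt (show (0 : ℝ) ≤ 2 by norm_num)
    exact_mod_cast this
  have h20 : (Real.sqrt 2 : ℂ) ≠ 0 := by
    intro h; rw [h] at h2; norm_num at h2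
  set c : ℂ := (Real.cos (l / 2) : ℂ) / (Real.sqrt 2 : ℂ) with hc
  set d : ℂ := (Real.sin (l / 2) : ℂ) / (Real.sqrt 2 : ℂ) with hd
  have hcd : c * c + d * d = 1 / 2 := by
    rw [hc, hd]
    field_simp
    rw [h2]
    linear_combination 2 * hcs
  have e1 : ∀ i j k : Fin 2, interpolant l ![i, j, k]
      = if i = j then (if k = i then c else d) else 0 := by
    intro i j k
    show (if i = j then (if k = i then (Real.cos (l / 2) : ℂ) else (Real.sin (l / 2) : ℂ)) /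
      (Real.sqrt 2 : ℂ) else 0) = _
    by_cases h1 : i = j
    · rw [if_pos h1, if_pos h1]
      by_cases h2 : k = i
      · rw [if_pos h2, if_pos h2]
      · rw [if_neg h2, if_neg h2]
    · rw [if_neg h1, if_neg h1]
  have hcc : conj c = c := by rw [hc, map_div₀, Complex.conj_ofReal, Complex.conj_ofReal]
  have hdc : conj d = d := by rw [hd, map_div₀, Complex.conj_ofReal, Complex.conj_ofReal]
  unfold ev
  simp only [dotProduct, Matrix.mulVec, tens, Matrix.of_apply, Pi.star_apply, sum_tri, e1,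
    Fin.prod_univ_three, Matrix.cons_val_zero, Matrix.cons_val_one, Matrix.cons_val,
    Matrix.one_apply, Fin.sum_univ_two]
  simp [hcc, hdc]
  linear_combination (A 0 0 + A 1 1) * hcd

/-! ### The state and the measurements -/

/-- `2^{-1/4}` -/
noncomputable def A : ℝ := Real.sqrt (Real.sqrt 2 / 2)
/-- `(1 - 2^{-1/2})^{1/2}` -/
noncomputable def B : ℝ := Real.sqrt (1 - Real.sqrt 2 / 2)

theorem s2 : Real.sqrt 2 ^ 2 = 2 := Real.sq_sqrt (by norm_num)

theorem s2_lt : Real.sqrt 2 < 2 := by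
  have := s2
  have h0 := Real.sqrt_nonneg 2
  nlinarith

theorem s2_gt : 1 < Real.sqrt 2 := by
  have := s2
  have h0 := Real.sqrt_nonneg 2
  nlinarith

theorem A_sq : A ^ 2 = Real.sqrt 2 / 2 := Real.sq_sqrt (by positivity)

theorem B_sq : B ^ 2 = 1 - Real.sqrt 2 / 2 := Real.sq_sqrt (by have := s2_lt; linarith)

theorem s2c : (Real.sqrt 2 : ℂ) ^ 2 = 2 := by exact_mod_cast s2
theorem A_sqc : (A : ℂ) ^ 2 = (Real.sqrt 2 : ℂ) / 2 := by exact_mod_cast A_sq
theorem B_sqc : (B : ℂ) ^ 2 = 1 - (Real.sqrt 2 : ℂ) / 2 := by exact_mod_cast B_sq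

/-- amplitudes -/
noncomputable def psiT : Fin 2 → Fin 2 → Fin 2 → ℂ :=
  ![![![(A : ℂ) * A, 0], ![0, (B : ℂ) * B]], ![![0, (A : ℂ) * B], ![(A : ℂ) * B, 0]]]

/-- the state `A²|000⟩ + B²|011⟩ + AB(|101⟩ + |110⟩)` -/
noncomputable def psi (x : Fin 3 → Fin 2) : ℂ := psiT (x 0) (x 1) (x 2)

/-- directions of the measurements on the first qubit -/
noncomputable def d1 : Fin 4 → Fin 3 → ℝ :=
  ![![0, 0, 1], ![0, -(Real.sqrt 2 / 2), Real.sqrt 2 / 2], ![0, -1, 0],
    ![0, -(Real.sqrt 2 / 2), -(Real.sqrt 2 / 2)]]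

/-- directions of the measurements on the second and third qubit -/
noncomputable def d2 : Fin 3 → Fin 3 → ℝ :=
  ![![0, 0, 1], ![0, -(2 * A * B), 1 - Real.sqrt 2], ![0, 2 * A * B, 1 - Real.sqrt 2]]

/-- eighth roots of unity -/
noncomputable def z1 : Fin 4 → Fin 2 → ℂ :=
  ![![1, -1], ![(1 + Complex.I) * (Real.sqrt 2 : ℂ) / 2, -((1 + Complex.I) * (Real.sqrt 2 : ℂ) / 2)],
    ![Complex.I, -Complex.I],
    ![(-1 + Complex.I) * (Real.sqrt 2 : ℂ) / 2, -((-1 + Complex.I) * (Real.sqrt 2 : ℂ) / 2)]]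

noncomputable def v1 (j : Fin 4) (a : Fin 2) : Fin 2 → ℂ := ![1 + z1 j a, 1 - z1 j a]

noncomputable def v2 : Fin 3 → Fin 2 → Fin 2 → ℂ :=
  ![![![1, 0], ![0, 1]], ![![(B : ℂ), -Complex.I * A], ![(A : ℂ), Complex.I * B]],
    ![![(B : ℂ), Complex.I * A], ![(A : ℂ), -Complex.I * B]]]

theorem proj_entries (n : Fin 3 → ℝ) (a : Fin 2) :
    proj n a 0 0 = (1 + (-1) ^ (a : ℕ) * n 2) / 2 ∧
    proj n a 0 1 = (-1) ^ (a : ℕ) * (n 0 - n 1 * Complex.I) / 2 ∧
    proj n a 1 0 = (-1) ^ (a : ℕ) * (n 0 + n 1 * Complex.I) / 2 ∧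
    proj n a 1 1 = (1 - (-1) ^ (a : ℕ) * n 2) / 2 := by
  refine ⟨?_, ?_, ?_, ?_⟩ <;> simp [proj, spin] <;> ring

theorem proj1 (j : Fin 4) (a : Fin 2) (x y : Fin 2) :
    proj (d1 j) a x y = (1 / 4 : ℂ) * (v1 j a x * conj (v1 j a y)) := by
  obtain ⟨p1, p2, p3, p4⟩ := proj_entries (d1 j) a
  have h2 := s2c
  have hI := Complex.I_sq
  have hc2 : conj (2 : ℂ) = 2 := by
    have := Complex.conj_ofReal 2
    simpa using this
  fin_cases x <;> fin_cases y <;> simp only [Fin.zero_eta, Fin.mk_one, p1, p2, p3, p4] <;>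
    clear p1 p2 p3 p4 <;> fin_cases j <;> fin_cases a <;>
    simp [d1, v1, z1] <;> (try ring_nf) <;> (try simp only [hc2, h2, hI]) <;> (try ring)

theorem proj2 (j : Fin 3) (a : Fin 2) (x y : Fin 2) :
    proj (d2 j) a x y = (1 : ℂ) * (v2 j a x * conj (v2 j a y)) := by
  obtain ⟨p1, p2, p3, p4⟩ := proj_entries (d2 j) a
  have h2 := s2c
  have hA := A_sqc
  have hB := B_sqc
  have hI := Complex.I_sq
  fin_cases x <;> fin_cases y <;> simp only [Fin.zero_eta, Fin.mk_one, p1, p2, p3, p4] <;>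
    clear p1 p2 p3 p4 <;> fin_cases j <;> fin_cases a <;>
    simp [d2, v2] <;> (try ring_nf) <;> (try simp only [hA, hB, hI]) <;> (try ring)

theorem born_zero (ψ : (Fin 3 → Fin 2) → ℂ) (n : Fin 3 → Fin 3 → ℝ) (a : Fin 3 → Fin 2)
    (κ : Fin 3 → ℂ) (v : Fin 3 → Fin 2 → ℂ)
    (h : ∀ i x y, proj (n i) (a i) x y = κ i * (v i x * conj (v i y)))
    (h0 : ∑ y : Fin 3 → Fin 2, (∏ i, conj (v i (y i))) * ψ y = 0) : born ψ n a = 0 := by
  unfold born
  apply Finset.sum_eq_zero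
  intro x _
  have e : ∀ y : Fin 3 → Fin 2, conj (ψ x) * (∏ i, proj (n i) (a i) (x i) (y i)) * ψ y
      = (conj (ψ x) * (∏ i, (κ i * v i (x i)))) * ((∏ i, conj (v i (y i))) * ψ y) := by
    intro y
    have : ∏ i, proj (n i) (a i) (x i) (y i)
        = (∏ i, (κ i * v i (x i))) * ∏ i, conj (v i (y i)) := by
      rw [← Finset.prod_mul_distrib]
      apply Finset.prod_congr rfl
      intro i _
      rw [h]; ring
    rw [this]; ring
  simp only [e]
  rw [← Finset.mul_sum, h0, mul_zero]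

/-- the conjugate eighth root of unity -/
noncomputable def et : ℂ := (1 - Complex.I) * (Real.sqrt 2 : ℂ) / 2

theorem et4 : et ^ 4 = -1 := by
  unfold et
  have h : ((1 - Complex.I) * (Real.sqrt 2 : ℂ) / 2) ^ 4
      = ((1 - Complex.I) ^ 2) ^ 2 * ((Real.sqrt 2 : ℂ) ^ 2) ^ 2 / 16 := by ring
  have h1 : (1 - Complex.I) ^ 2 = -2 * Complex.I := by
    linear_combination Complex.I_sq
  rw [h, h1, s2c]
  have hI := Complex.I_sq
  linear_combination hI

/-- exponents for the first party -/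
def e1 (j : Fin 4) (a : Fin 2) : ℕ := (j : ℕ) + 4 * (a : ℕ)

/-- exponents for the second and third party -/
def e2 (j : Fin 3) (a : Fin 2) : ℕ := (![![0, 4], ![2, 7], ![6, 1]] : Fin 3 → Fin 2 → ℕ) j a

theorem rel1 (j : Fin 4) (a : Fin 2) :
    conj (v1 j a 0) - conj (v1 j a 1) = et ^ e1 j a * (conj (v1 j a 0) + conj (v1 j a 1)) := by
  have h4 := et4
  have h2 := s2c
  have hI := Complex.I_sq
  have hc2 : conj (2 : ℂ) = 2 := by
    have := Complex.conj_ofReal 2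
    simpa using this
  have h1 : et ^ 2 = -Complex.I := by
    unfold et
    have : ((1 - Complex.I) * (Real.sqrt 2 : ℂ) / 2) ^ 2
      = ((1 - Complex.I) ^ 2) * ((Real.sqrt 2 : ℂ) ^ 2) / 4 := by ring
    rw [this, h2]
    linear_combination (1 / 2 : ℂ) * hI
  have h3 : et ^ 3 = -Complex.I * et := by rw [pow_succ, h1]
  have h5 : et ^ 5 = -et := by rw [pow_succ, h4]; ring
  have h6 : et ^ 6 = Complex.I := by rw [show 6 = 4 + 2 by norm_num, pow_add, h4, h1]; ring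
  have h7 : et ^ 7 = Complex.I * et := by rw [pow_succ, h6]
  fin_cases j <;> fin_cases a <;> simp [e1, v1, z1, h1, h3, h4, h5, h6, h7, hc2] <;>
    (try unfold et) <;> (try ring_nf) <;> (try simp only [hc2, h2, hI]) <;> (try ring)

theorem rel2 (j : Fin 3) (a : Fin 2) :
    conj (v2 j a 0) * A - conj (v2 j a 1) * B
      = et ^ e2 j a * (conj (v2 j a 0) * A + conj (v2 j a 1) * B) := by
  have h4 := et4
  have h2 := s2c
  have hI := Complex.I_sq
  have hA := A_sqc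
  have hB := B_sqc
  have h1 : et ^ 2 = -Complex.I := by
    unfold et
    have : ((1 - Complex.I) * (Real.sqrt 2 : ℂ) / 2) ^ 2
      = ((1 - Complex.I) ^ 2) * ((Real.sqrt 2 : ℂ) ^ 2) / 4 := by ring
    rw [this, h2]
    linear_combination (1 / 2 : ℂ) * hI
  have h6 : et ^ 6 = Complex.I := by rw [show 6 = 4 + 2 by norm_num, pow_add, h4, h1]; ring
  have h7 : et ^ 7 = Complex.I * et := by rw [pow_succ, h6]
  fin_cases j <;> fin_cases a <;> simp [e2, v2, h1, h4, h6, h7] <;>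
    (try unfold et) <;> (try ring_nf) <;> (try simp only [hA, hB, hI]) <;> (try ring_nf) <;>
    (try simp only [h2]) <;> (try ring) <;>
    (try linear_combination (((1 / 2 : ℂ) - (Real.sqrt 2 : ℂ) / 2) * Complex.I) * hI)

theorem amp_zero (i : Fin 4) (j k : Fin 3) (a b c : Fin 2)
    (h : (e1 i a + e2 j b + e2 k c) % 8 = 4) :
    ∑ y : Fin 3 → Fin 2, (∏ l, conj ((![v1 i a, v2 j b, v2 k c] : Fin 3 → Fin 2 → ℂ) l (y l)))
      * psi y = 0 := by
  have r1 := rel1 i a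
  have r2 := rel2 j b
  have r3 := rel2 k c
  have h4 := et4
  have hprod : et ^ e1 i a * et ^ e2 j b * et ^ e2 k c = -1 := by
    rw [← pow_add, ← pow_add]
    obtain ⟨m, hm⟩ : ∃ m, e1 i a + e2 j b + e2 k c = 4 + 8 * m :=
      ⟨(e1 i a + e2 j b + e2 k c) / 8, by omega⟩
    rw [hm, pow_add, pow_mul, h4, show et ^ 8 = (et ^ 4) ^ 2 by ring, h4]
    norm_num
  rw [sum_tri]
  simp only [Fin.sum_univ_two, Fin.prod_univ_three, psi, psiT, Matrix.cons_val_zero,
    Matrix.cons_val_one, Matrix.cons_val, mul_zero, add_zero, zero_add]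
  generalize conj (v1 i a 0) = p0 at *
  generalize conj (v1 i a 1) = p1 at *
  generalize conj (v2 j b 0) = q0 at *
  generalize conj (v2 j b 1) = q1 at *
  generalize conj (v2 k c 0) = t0 at *
  generalize conj (v2 k c 1) = t1 at *
  have key : 2 * (p0 * q0 * t0 * ((A : ℂ) * A) + p0 * q1 * t1 * ((B : ℂ) * B)
      + (p1 * q0 * t1 * ((A : ℂ) * B) + p1 * q1 * t0 * ((A : ℂ) * B)))
      = (p0 + p1) * (q0 * A + q1 * B) * (t0 * A + t1 * B)
        + (p0 - p1) * (q0 * A - q1 * B) * (t0 * A - t1 * B) := by ring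
  rw [r1, r2, r3] at key
  have key2 : 2 * (p0 * q0 * t0 * ((A : ℂ) * A) + p0 * q1 * t1 * ((B : ℂ) * B)
      + (p1 * q0 * t1 * ((A : ℂ) * B) + p1 * q1 * t0 * ((A : ℂ) * B))) = 0 := by
    rw [key]
    linear_combination ((p0 + p1) * (q0 * A + q1 * B) * (t0 * A + t1 * B)) * hprod
  rcases mul_eq_zero.mp key2 with h | h
  · norm_num at h
  · exact h

theorem comb : ∀ (g1 : Fin 4 → Fin 2) (g2 g3 : Fin 3 → Fin 2),
    ∃ (i : Fin 4) (j k : Fin 3), (e1 i (g1 i) + e2 j (g2 j) + e2 k (g3 k)) % 8 = 4 := by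
  decide +kernel

/-- the sets of measurements -/
noncomputable def M : Fin 3 → Finset (Fin 3 → ℝ) := by
  classical
  exact ![Finset.univ.image d1, Finset.univ.image d2, Finset.univ.image d2]

theorem isScenario : IsScenario psi M := by
  have hA := A_sq
  have hB := B_sq
  have h2 := s2
  refine ⟨?_, ?_, ?_⟩
  · have e : ∀ x, ((‖psi x‖ ^ 2 : ℝ) : ℂ) = conj (psi x) * psi x := by
      intro x; rw [Complex.conj_mul']; push_cast; rfl
    have : ((∑ x, ‖psi x‖ ^ 2 : ℝ) : ℂ) = 1 := by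
      rw [Complex.ofReal_sum]
      simp only [e]
      rw [sum_tri]
      simp [psi, psiT, Fin.sum_univ_two]
      have hAc := A_sqc
      have hBc := B_sqc
      have : (A : ℂ) * A * (A * A) + B * B * (B * B) + (A * B * (A * B) + A * B * (A * B))
        = (A ^ 2 + B ^ 2) ^ 2 := by ring
      rw [this, hAc, hBc]; ring
    exact_mod_cast this
  · intro i
    fin_cases i
    · exact ⟨d1 0, by simp [M]⟩
    · exact ⟨d2 0, by simp [M]⟩
    · exact ⟨d2 0, by simp [M]⟩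
  · have k1 : ∀ j, d1 j 0 ^ 2 + d1 j 1 ^ 2 + d1 j 2 ^ 2 = 1 := by
      intro j
      fin_cases j <;> simp [d1] <;> nlinarith
    have k2 : ∀ j, d2 j 0 ^ 2 + d2 j 1 ^ 2 + d2 j 2 ^ 2 = 1 := by
      intro j
      have : (2 * A * B) ^ 2 = 4 * (A ^ 2 * B ^ 2) := by ring
      fin_cases j <;> simp [d2, this] <;> rw [hA, hB] <;> nlinarith
    intro i n hn
    fin_cases i
    · simp [M] at hn
      obtain ⟨j, rfl⟩ := hn
      exact k1 j
    · simp [M] at hn
      obtain ⟨j, rfl⟩ := hn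
      exact k2 j
    · simp [M] at hn
      obtain ⟨j, rfl⟩ := hn
      exact k2 j

theorem isParadox : IsParadox psi M := by
  rintro ⟨g, hg⟩
  obtain ⟨i, j, k, h⟩ := comb (fun i => g 0 (d1 i)) (fun j => g 1 (d2 j)) (fun k => g 2 (d2 k))
  apply hg ![d1 i, d2 j, d2 k]
  · intro l
    fin_cases l <;> simp [M]
  · apply born_zero psi _ _ ![1 / 4, 1, 1]
      ![v1 i (g 0 (d1 i)), v2 j (g 1 (d2 j)), v2 k (g 2 (d2 k))]
    · intro l x y
      fin_cases l
      · exact proj1 i _ x y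
      · exact proj2 j _ x y
      · exact proj2 k _ x y
    · exact amp_zero i j k _ _ _ h

/-- the Pauli matrix `Z` -/
def Zm : Matrix (Fin 2) (Fin 2) ℂ := !![1, 0; 0, -1]

theorem ev_psi_ne (i : Fin 3) : ev psi (Function.update 1 i Zm) ≠ 0 := by
  have hA := A_sqc
  have hB := B_sqc
  have h2 := s2c
  have hgt : (1 : ℂ) - (Real.sqrt 2 : ℂ) ≠ 0 := by
    have : (1 : ℝ) - Real.sqrt 2 ≠ 0 := by have := s2_gt; linarith
    exact_mod_cast this
  have hval : ev psi (Function.update 1 i Zm)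
      = if i = 0 then (1 - (Real.sqrt 2 : ℂ)) ^ 2 else -(1 - (Real.sqrt 2 : ℂ)) := by
    unfold ev
    simp only [dotProduct, Matrix.mulVec, tens, Matrix.of_apply, Pi.star_apply, sum_tri,
      Fin.prod_univ_three, Fin.sum_univ_two]
    fin_cases i
    · simp [psi, psiT, Zm, Function.update, Matrix.one_apply]
      have : (A : ℂ) * A * (A * A) + B * B * (B * B) + (-(A * B * (A * B)) + -(A * B * (A * B)))
        = (A ^ 2 - B ^ 2) ^ 2 := by ring
      rw [this, hA, hB]; ring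
    · simp [psi, psiT, Zm, Function.update, Matrix.one_apply]
      have : (A : ℂ) * A * (A * A) + -(B * B * (B * B)) = (A ^ 2 - B ^ 2) * (A ^ 2 + B ^ 2) := by
        ring
      rw [this, hA, hB]; ring
    · simp [psi, psiT, Zm, Function.update, Matrix.one_apply]
      have : (A : ℂ) * A * (A * A) + -(B * B * (B * B)) = (A ^ 2 - B ^ 2) * (A ^ 2 + B ^ 2) := by
        ring
      rw [this, hA, hB]; ring
  rw [hval]
  split_ifs
  · exact pow_ne_zero 2 hgt
  · exact neg_ne_zero.mpr hgt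

theorem not_equivalent (l : ℝ) : ¬ Equivalent psi (interpolant l) := by
  rintro ⟨U, s, z, hU, hz, h⟩
  have hU1 : ∀ i, (U i)ᴴ * U i = 1 := fun i => Matrix.mem_unitaryGroup_iff'.mp (hU i)
  have hU2 : ∀ i, U i * (U i)ᴴ = 1 := fun i => Matrix.mem_unitaryGroup_iff.mp (hU i)
  have e1 := ev_equiv hz h ![U 0 * Zm * (U 0)ᴴ, 1, 1]
  rw [interp_marginal] at e1
  have htr : (U 0 * Zm * (U 0)ᴴ) 0 0 + (U 0 * Zm * (U 0)ᴴ) 1 1 = 0 := by
    have : (U 0 * Zm * (U 0)ᴴ).trace = 0 := by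
      rw [Matrix.trace_mul_comm, ← Matrix.mul_assoc, hU1, one_mul]
      simp [Matrix.trace, Zm, Fin.sum_univ_two]
    simpa [Matrix.trace, Fin.sum_univ_two] using this
  have e2 : (fun i => (U i)ᴴ * (![U 0 * Zm * (U 0)ᴴ, 1, 1] : Fin 3 → Matrix (Fin 2) (Fin 2) ℂ) i
      * U i) = (Function.update 1 0 Zm : Fin 3 → Matrix (Fin 2) (Fin 2) ℂ) := by
    funext i
    fin_cases i
    · show (U 0)ᴴ * (U 0 * Zm * (U 0)ᴴ) * U 0 = Zm
      calc (U 0)ᴴ * (U 0 * Zm * (U 0)ᴴ) * U 0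
          = ((U 0)ᴴ * U 0) * Zm * ((U 0)ᴴ * U 0) := by simp only [Matrix.mul_assoc]
        _ = Zm := by rw [hU1]; simp
    · show (U 1)ᴴ * 1 * U 1 = _
      rw [mul_one, hU1]
      rfl
    · show (U 2)ᴴ * 1 * U 2 = _
      rw [mul_one, hU1]
      rfl
  rw [htr, e2, ev_perm] at e1
  have e3 : (fun i => (Function.update 1 0 Zm : Fin 3 → Matrix (Fin 2) (Fin 2) ℂ) (s i))
      = (Function.update 1 (s.symm 0) Zm : Fin 3 → Matrix (Fin 2) (Fin 2) ℂ) := by
    funext i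
    by_cases hi : i = s.symm 0
    · subst hi
      rw [Equiv.apply_symm_apply, Function.update_self, Function.update_self]
    · rw [Function.update_of_ne hi, Function.update_of_ne]
      · rfl
      · intro h0
        apply hi
        rw [← h0, Equiv.symm_apply_apply]
  rw [e3] at e1
  exact ev_psi_ne _ (by rw [← e1]; simp)

/-- There is a three-qubit paradox whose state cannot be carried to any interpolant state `|B_λ⟩`
with `λ ∈ [0, π/2)` by permutations of the qubits, local unitaries and a global phase. -/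
theorem result : ∃ (ψ : (Fin 3 → Fin 2) → ℂ) (M : Fin 3 → Finset (Fin 3 → ℝ)),
    IsScenario ψ M ∧ IsParadox ψ M ∧
      ∀ l : ℝ, 0 ≤ l → l < Real.pi / 2 → ¬ Equivalent ψ (interpolant l) :=
  ⟨psi, M, isScenario, isParadox, fun l _ _ => not_equivalent l⟩

end Pool.Agent.Results.MP_3e1590_mp.NoInterpolant
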